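import Pool.Agent.Helper84.FX.StG
import Pool.Agent.Helper72.FX.Defs

/-!
# Project FX, chapter T, file X: the spaces `W`, `W_G`, `H`, `Y` (sections T5, T6, T7)

Coordinates of `Fin 10 → ℂ`: `a b t ρ n σ μ x y w` (`n = ν'`, `(x,y,w) = ω`); `Fin 12 → ℂ`: two more,
`w₁ w₂`.  Everything is over a set `U` of values of `t`.  `K = (kx, ky, kz)` and `κ` are evaluated at
`(a, b, t)`.  Module `XXX` proves `hXXX : (hypotheses) → StXXX`.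
-/

set_option autoImplicit false

namespace Pool.Agent.Helper84.FX

open Set Pool.Agent.Helper72.FX

noncomputable section

/-- The open set `U` of parameters is allowed: it misses 0 and has a continuous square root. -/
def Adm (U : Set ℂ) : Prop :=
  IsOpen U ∧ ∃ s : ℂ → ℂ, ContinuousOn s U ∧ ∀ t ∈ U, s t ^ 2 = t ∧ t ≠ 0

/-- `P_U`, coordinates `a, b, t, r`. -/
def PU (U : Set ℂ) : Set (ℂ × ℂ × ℂ × ℝ) :=
  {q | q.2.2.1 ∈ U ∧ 0 ≤ q.2.2.2 ∧ q.2.2.2 ≤ 1 ∧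
    (0 < q.2.2.2 → q.2.2.2 < 1 → nu q.1 q.2.1 q.2.2.1 = 0)}

/-- `Q_U`, coordinates `t, x, y, z`. -/
def QU (U : Set ℂ) : Set (ℂ × ℂ × ℂ × ℂ) :=
  {q | q.1 ∈ U ∧ q.2.2.1 * (1 + q.1 * q.2.1) = q.2.1 + q.2.2.2 ^ 2}

open Classical in
/-- The map `Φ : P → Q`: `ν K` on the left end `r = 0`, the point `O` elsewhere. -/
def Phi (q : ℂ × ℂ × ℂ × ℝ) : ℂ × ℂ × ℂ × ℂ :=
  if q.2.2.2 ≤ 0 then
    (q.2.2.1, nu q.1 q.2.1 q.2.2.1 * kx q.1 q.2.1 q.2.2.1,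
      nu q.1 q.2.1 q.2.2.1 * ky q.1 q.2.1 q.2.2.1, nu q.1 q.2.1 q.2.2.1 * kz q.1 q.2.1 q.2.2.1)
  else (q.2.2.1, 0, 0, 0)

/-- PHI (section T4, architect helper9; proved from `StKK`). -/
def StPHI : Prop := ∀ U : Set ℂ, Adm U → WE (PU U) (QU U) Phi

/-- KF.  From `StKK`.  PROOF.  `det (SS 1) = -t` in `ℂ[a,b,t]` (because `det gg = 1`, `det J₀ = -t`; `SS`
is symmetric).  With the entries of `StKK` this reads `t² ν (ky - kx + ν (t kx ky - kz²)) = 0` and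
`t² ν ≠ 0` in a domain.  Then evaluate at a point. -/
def StKF : Prop := ∀ a b t : ℂ, ky a b t - kx a b t = -(nu a b t * kappa a b t)

/-- KSM.  Smoothness of the polynomial functions.
PROOF.  `kx a b t` is the evaluation of a polynomial; induction on polynomials. -/
def StKSM : Prop :=
  ContDiff ℂ (⊤ : ℕ∞) (fun q : ℂ × ℂ × ℂ => kx q.1 q.2.1 q.2.2) ∧
  ContDiff ℂ (⊤ : ℕ∞) (fun q : ℂ × ℂ × ℂ => ky q.1 q.2.1 q.2.2) ∧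
  ContDiff ℂ (⊤ : ℕ∞) (fun q : ℂ × ℂ × ℂ => kz q.1 q.2.1 q.2.2) ∧
  ContDiff ℂ (⊤ : ℕ∞) (fun q : ℂ × ℂ × ℂ => kappa q.1 q.2.1 q.2.2) ∧
  ContDiff ℂ (⊤ : ℕ∞) (fun q : ℂ × ℂ × ℂ => nu q.1 q.2.1 q.2.2)

/-- `E₁` at a point. -/
def EE1 (z : Fin 10 → ℂ) : ℂ := E1 (z 0) (z 1) (z 2) (z 3) (z 4) (z 5) (z 6)

/-- `E₂` at a point. -/
def EE2 (z : Fin 10 → ℂ) : ℂ :=
  E2 (z 0) (z 1) (z 2) (z 3) (z 4) (z 5) (z 6) (z 7) (z 8) (z 9)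

/-- `ν` at a point. -/
def nz (z : Fin 10 → ℂ) : ℂ := nu (z 0) (z 1) (z 2)

def WW (U : Set ℂ) : Set (Fin 10 → ℂ) := {z | z 2 ∈ U ∧ EE1 z = 0 ∧ EE2 z = 0}

def WG (U : Set ℂ) : Set (Fin 10 → ℂ) := {z | z ∈ WW U ∧ z 5 = z 3}

def N1 (U : Set ℂ) : Set (Fin 10 → ℂ) :=
  {z | z 2 ∈ U ∧ z 4 = 0 ∧ z 7 = 0 ∧ z 8 = 0 ∧ z 9 = 0 ∧ nz z = z 5 * z 6}

def N2 (U : Set ℂ) : Set (Fin 10 → ℂ) :=
  {z | z 2 ∈ U ∧ z 6 = 0 ∧ z 7 = 0 ∧ z 8 = 0 ∧ z 9 = 0 ∧ nz z = z 3 * z 4}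

def N1G (U : Set ℂ) : Set (Fin 10 → ℂ) := {z | z ∈ N1 U ∧ z 5 = z 3}

def N2G (U : Set ℂ) : Set (Fin 10 → ℂ) := {z | z ∈ N2 U ∧ z 5 = z 3}

/-- The map to `Q`: `(t, S)`, `S = σ (μ K + ρ ω)`. -/
def SM (z : Fin 10 → ℂ) : ℂ × ℂ × ℂ × ℂ :=
  (z 2, z 5 * (z 6 * kx (z 0) (z 1) (z 2) + z 3 * z 7),
    z 5 * (z 6 * ky (z 0) (z 1) (z 2) + z 3 * z 8),
    z 5 * (z 6 * kz (z 0) (z 1) (z 2) + z 3 * z 9))

/-- CGR.  WE only depends on the values of the map on the source.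
PROOF.  The definition. -/
def StCGR : Prop := ∀ (E F : Type) [TopologicalSpace E] [TopologicalSpace F] (X : Set E) (Y : Set F)
    (f g : E → F), (∀ x ∈ X, f x = g x) → WE X Y f → WE X Y g

/-- QS.  The identity behind `W → Q`.
PROOF.  With `q_s(x,y,z) = (y-x) + s(txy - z²)` and KF one has
`q_σ(μK + ρω) = -μ κ E₁ + ρ E₂` (expand: `μ(ky-kx) = -μνκ`).  (1): `q_1(σ S') = σ q_σ(S')`.
(2): `ρ E₂ = q_σ(S') + μκE₁ = q_1(S)/σ`. -/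
def StQS : Prop := (∀ (U : Set ℂ) (z : Fin 10 → ℂ), z ∈ WW U → SM z ∈ QU U) ∧
  ∀ (U : Set ℂ) (z : Fin 10 → ℂ), EE1 z = 0 → z 3 ≠ 0 → z 5 ≠ 0 → SM z ∈ QU U → z ∈ WW U

/-- GR.  Where gradients do not vanish (`t ≠ 0`).
PROOF.  (1) Otherwise `a = 0`, `tb = -1`, so `ν = b(2 + tb) = b ≠ 0`.
(2) Let `S = σ(μK + ρω) = (X, Y, Z)`; on `W` it satisfies `(1+tX)(1-tY) + tZ² = 1` (this is
`1 - t q(S)`), so `1+tX`, `1-tY`, `Z` are not all 0.  (`∂_ω E₂ = (-(1-tY), 1+tX, -2Z)`.) -/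
def StGR : Prop :=
  (∀ a b t : ℂ, t ≠ 0 → a = 0 → 1 + t * b = 0 → nu a b t ≠ 0) ∧
  ∀ (U : Set ℂ) (z : Fin 10 → ℂ), z ∈ WW U →
    -1 + z 5 * (z 2 * z 6 * ky (z 0) (z 1) (z 2) + z 2 * z 3 * z 8) ≠ 0 ∨
    1 + z 5 * (z 2 * z 6 * kx (z 0) (z 1) (z 2) + z 2 * z 3 * z 7) ≠ 0 ∨
    z 5 * (z 6 * kz (z 0) (z 1) (z 2) + z 3 * z 9) ≠ 0

/-! ### T5: `W_G → W` -/

/-- DGW.  The inclusion of the double cylinders.
PROOF.  HEQ.  Inverse: replace `ρ` and `σ` by `m = (1-r)σ + rρ` (`r` the cylinder coordinate);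
homotopy: replace `ρ` by `(1-τ)ρ + τm`, `σ` by `(1-τ)σ + τm`.  For `r = 0`: `m = σ`, `σ` does not
move and `N1` does not involve `ρ`; `r = 1`: `ρ` does not move and `N2` does not involve `σ`; for
`0 < r < 1`: `n = μ = 0`, `ν = 0`, no condition on `ρ, σ`.  On the smaller space it is constant. -/
def StDGW : Prop := ∀ U : Set ℂ, WE (DM (N1G U) (N2G U)) (DM (N1 U) (N2 U)) id

/-- DMP.  `fst` maps the double cylinders to `W_G` and `W`.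
PROOF.  `N1, N2 ⊆ W`: for `ω = 0` we have `E₂ = -μ n κ`. -/
def StDMP : Prop := ∀ U : Set ℂ, Mp (DM (N1 U) (N2 U)) (WW U) Prod.fst ∧
  Mp (DM (N1G U) (N2G U)) (WG U) Prod.fst

/-- TWG.  Tameness of `σ` on `W_G`.
PROOF.  TMC with `Ω = {t ∈ U}`, `e = (E₁, E₂, σ - ρ)`, `g = σ`.  At a zero with `σ = ρ = 0`: `ν = 0`, so
`(a, 1+tb) ≠ 0` by GR (1); target `(α,β,γ,δ)`: take the `σ`-component `δ`, the `ρ`-component `δ - γ`,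
then the `a`- or `b`-component to correct `E₁` (`∂_a E₁ = -2a`, `∂_b E₁ = 2(1+tb)`), then the
`y`-component to correct `E₂` (`∂_y E₂ = 1` at `σ = 0`, and `y` occurs in nothing else). -/
def StTWG : Prop := ∀ U : Set ℂ, IsOpen U → (0 : ℂ) ∉ U → Tame (WG U) (fun z => z 5)

/-- TNG.  Tameness of `σ` on `N1G`, `N2G` and the intersection.
PROOF.  TMC with `e` = the defining linear coordinates, `σ - ρ` and `ν - σμ` (resp. `ν - ρn`, `ν`),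
`g = σ`.  At `σ = ρ = 0`: `ν = 0`, so `dν ≠ 0` in the directions `a, b` by GR (1); all other
equations and `g` are independent coordinates. -/
def StTNG : Prop := ∀ U : Set ℂ, IsOpen U → (0 : ℂ) ∉ U → Tame (N1G U) (fun z => z 5) ∧
  Tame (N2G U) (fun z => z 5) ∧ Tame (N1G U ∩ N2G U) (fun z => z 5)

/-- A0.  The part `σ = 0` over `W_G`.
PROOF.  Let `G = {(a,b,t) : t ∈ U, ν = 0}`, `p z = (a,b,t)`.  (i) `p` on `{z ∈ W_G, σ = 0}` is a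
homotopy equivalence to `G`: here `σ = ρ = 0`, `ν = 0`, `-μ n κ + y - x = 0`; scale
`(n, μ, x, y, w) ↦ (τn, τμ, τ²x, τ²y, τ²w)`.  (ii) `p ∘ fst` on the cylinder part is one:
first scale `(n, μ)` by `τ` (`r` fixed), then (`n = μ = 0`) `r ↦ τ r`.  CN2. -/
def StA0 : Prop := ∀ U : Set ℂ, (0 : ℂ) ∉ U →
  WE {q | q ∈ DM (N1G U) (N2G U) ∧ q.1 5 = 0} {z | z ∈ WG U ∧ z 5 = 0} Prod.fst

/-- A1.  The part `σ ≠ 0` over `W_G`.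
PROOF.  (i) `z ↦ (SM z, σ)` from `{z ∈ W_G, σ ≠ 0}` to `QU U × {σ ≠ 0}` is a homotopy equivalence.
Inverse: `(t,x,y,w;σ) ↦ (0,0,t,σ,0,σ,0,x/σ²,y/σ²,w/σ²)` (in `W` by QS (2)); homotopy, for fixed
`S = SM z` and `σ`: `a, b, μ` times `τ`, `n_τ = ν(τa,τb,t)/σ - τμ`,
`ω_τ = (S/σ - τμ K(τa,τb,t))/σ` (in `W_G` by QS (2)).  (ii) `(z, r) ↦ ((a,b,t,r), σ)` is a
homeomorphism of the cylinder part to `PU U × {σ ≠ 0}`: `μ = (1-r)ν/σ`, `n = rν/σ`, `ω = 0`.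
(iii) `(SM, σ) ∘ fst = (Φ × id) ∘ (ii)`: for `r = 0`, `σμK = νK`; for `r > 0`, `μ = 0`.  By PHI,
PRD, CMP the right side is WE, so `fst` is WE by CN2. -/
def StA1 : Prop := ∀ U : Set ℂ, Adm U →
  WE {q | q ∈ DM (N1G U) (N2G U) ∧ q.1 5 ≠ 0} {z | z ∈ WG U ∧ z 5 ≠ 0} Prod.fst

/-- T5A.  PROOF.  GL with `N` = the cylinder, `M = W_G`, `g = σ`: TWG, TNG with TDM, A0, A1. -/
def StT5A : Prop := ∀ U : Set ℂ, Adm U → WE (DM (N1G U) (N2G U)) (WG U) Prod.fst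

/-- TWR.  Tameness of `ρ` on `W`.
PROOF.  TMC, `e = (E₁, E₂)`, `g = ρ`.  At a zero with `ρ = 0`: the `ω`-gradient of `E₂` is not 0 by
GR (2) (and `ω` occurs neither in `E₁` nor in `ρ`); `E₁`: the directions `a, b` if `(a, 1+tb) ≠ 0`,
otherwise `ν ≠ 0`, so `σ ≠ 0` (as `ν = ρn + σμ`) and the direction `μ` works (`∂_μ E₁ = -σ`);
`ρ` itself is a coordinate.  Triangular system in the order `ρ`, `E₁`, `E₂`. -/
def StTWR : Prop := ∀ U : Set ℂ, IsOpen U → (0 : ℂ) ∉ U → Tame (WW U) (fun z => z 3)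

/-- TNR.  Tameness of `ρ` on `N1`, `N2`, `N1 ∩ N2`.
PROOF.  TMC.  `N1`: `ν - σμ` has nonzero differential in `a, b, μ` (if `(a,1+tb) = 0` then
`ν ≠ 0`, `σ ≠ 0`), `ρ` is free.  `N2`: at `ρ = 0`, `ν = 0`, so `dν ≠ 0`.  `N1 ∩ N2`: `ν = 0`. -/
def StTNR : Prop := ∀ U : Set ℂ, IsOpen U → (0 : ℂ) ∉ U → Tame (N1 U) (fun z => z 3) ∧
  Tame (N2 U) (fun z => z 3) ∧ Tame (N1 U ∩ N2 U) (fun z => z 3)

/-- TWS.  Tameness of `σ` on the part `ρ ≠ 0` of `W`.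
PROOF.  TMC with `Ω = {t ∈ U, ρ ≠ 0}`, `e = (E₁, E₂)`, `g = σ`.  At `σ = 0`: `∂_n E₁ = -ρ ≠ 0`,
`∂_y E₂ = 1`, `y` occurs in nothing else; order: `σ`, then `n`, then `y`. -/
def StTWS : Prop := ∀ U : Set ℂ, IsOpen U → (0 : ℂ) ∉ U →
  Tame {z | z ∈ WW U ∧ z 3 ≠ 0} (fun z => z 5)

/-- TNS.  Tameness of `σ` on the parts `ρ ≠ 0` of `N1`, `N2`, `N1 ∩ N2`.
PROOF.  TMC.  `N1`: at `σ = 0`, `ν = 0`, so `dν ≠ 0`.  `N2`: `∂_n (ν - ρn) = -ρ ≠ 0`.  `N1 ∩ N2`: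
`dν ≠ 0`. -/
def StTNS : Prop := ∀ U : Set ℂ, IsOpen U → (0 : ℂ) ∉ U →
  Tame {z | z ∈ N1 U ∧ z 3 ≠ 0} (fun z => z 5) ∧ Tame {z | z ∈ N2 U ∧ z 3 ≠ 0} (fun z => z 5) ∧
  Tame ({z | z ∈ N1 U ∧ z 3 ≠ 0} ∩ {z | z ∈ N2 U ∧ z 3 ≠ 0}) (fun z => z 5)

/-- B0.  The part `ρ = 0` over `W`.
PROOF.  Let `L = {(a,b,t,σ,μ) : t ∈ U, ν = σμ}`.  (i) `{z ∈ W, ρ = 0} → L` is a homotopy equivalence:
for `ρ = 0` the equation `E₂ = 0` is homogeneous linear in `(n, x, y, w)`; scale them by `τ`.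
(ii) cylinder part: `ω = 0`, `ν = σμ`, `r < 1 → n = 0`, `r > 0 → μ = 0`: first scale `n` by `τ` (`r`
fixed), then (`n = 0`) `r ↦ τ r`.  CN2. -/
def StB0 : Prop := ∀ U : Set ℂ,
  WE {q | q ∈ DM (N1 U) (N2 U) ∧ q.1 3 = 0} {z | z ∈ WW U ∧ z 3 = 0} Prod.fst

/-- B10.  The part `ρ ≠ 0`, `σ = 0` over `W`.
PROOF.  Both are homotopy equivalent to `{(t, ρ) : t ∈ U, ρ ≠ 0}`.  (i) `W` part: `n = ν/ρ`,
`y = x + μ n κ`, free coordinates `a,b,t,ρ,μ,x,w`: scale `a, b, μ, x, w` by `τ`, `n` and `y` by the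
formulas.  (ii) cylinder part: first scale `μ` by `τ`; then (`μ = 0`, `ν = ρn`) `r ↦ r + τ(1-r)`
(for `r < 1`: `n = 0`, `ν = 0`); then (`r = 1`) scale `a, b` by `τ`, `n = ν/ρ`.  CN2. -/
def StB10 : Prop := ∀ U : Set ℂ, (0 : ℂ) ∉ U →
  WE {q | (q ∈ DM (N1 U) (N2 U) ∧ q.1 3 ≠ 0) ∧ q.1 5 = 0}
    {z | (z ∈ WW U ∧ z 3 ≠ 0) ∧ z 5 = 0} Prod.fst

/-- B11.  The part `ρ ≠ 0`, `σ ≠ 0` over `W`.
PROOF.  As A1 with `(SM z, ρ, σ)`: (i) inverse `(t,x,y,w;ρ,σ) ↦ (0,0,t,ρ,0,σ,0,x/(ρσ),y/(ρσ),w/(ρσ))`,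
homotopy `n_τ = (ν(τa,τb,t) - σ τμ)/ρ`, `ω_τ = (S/σ - τμ K(τa,τb,t))/ρ`.  (ii) cylinder part:
`μ = (1-r)ν/σ`, `n = rν/ρ`. -/
def StB11 : Prop := ∀ U : Set ℂ, Adm U →
  WE {q | (q ∈ DM (N1 U) (N2 U) ∧ q.1 3 ≠ 0) ∧ q.1 5 ≠ 0}
    {z | (z ∈ WW U ∧ z 3 ≠ 0) ∧ z 5 ≠ 0} Prod.fst

/-- T5B.  PROOF.  GL with `g = ρ` (TWR, TNR with TDM, B0); the part `ρ ≠ 0` is again GL with `g = σ`
(TWS, TNS with TDM for the double cylinder of the parts `ρ ≠ 0`, which is the part `ρ ≠ 0` of the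
double cylinder; B10, B11). -/
def StT5B : Prop := ∀ U : Set ℂ, Adm U → WE (DM (N1 U) (N2 U)) (WW U) Prod.fst

/-- T5.  PROOF.  `id ∘ fst = fst ∘ id` on the small cylinder; the right side is WE by DGW, T5B, CMP, and
`fst` to `W_G` is WE by T5A; CN3. -/
def StT5 : Prop := ∀ U : Set ℂ, Adm U → WE (WG U) (WW U) id

/-! ### T6: `H` and `Y` over `U` -/

def C10 (U : Set ℂ) : Set (Fin 10 → ℂ) := {z | z 2 ∈ U}

def HH (U : Set ℂ) : Set (Fin 12 → ℂ) := {z | z 2 ∈ U ∧ FF z = 0}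

/-- Forget `w₁`, `w₂`. -/
def pr10 (z : Fin 12 → ℂ) : Fin 10 → ℂ :=
  ![z 0, z 1, z 2, z 3, z 4, z 5, z 6, z 7, z 8, z 9]

/-- TE.  PROOF.  TMC with trivial `e` (values in `Fin 0 → ℝ`), `Ω = {t ∈ U}`, `g = (E₁, E₂)`: on `W` the
`ω`-gradient of `E₂` is not 0 (GR (2)) and `ω` does not occur in `E₁`; `dE₁ ≠ 0`: directions `a, b`,
or if `(a, 1+tb) = 0` then `ν = ρn + σμ ≠ 0`, so `ρ ≠ 0` or `σ ≠ 0`: directions `n` or `μ`. -/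
def StTE : Prop := ∀ U : Set ℂ, IsOpen U → (0 : ℂ) ∉ U → Tame (C10 U) (fun z => (EE1 z, EE2 z))

/-- THH.  PROOF.  TMC with `e = F`, `Ω = {t ∈ U}`, `g = (E₁, E₂)`.  At a zero: `σ = ρ` and
`dF = w₁ dE₁ + w₂ dE₂ - d(σ - ρ)`, so it is enough that `(E₁, E₂, σ - ρ)` has surjective differential:
`E₂` by the `ω`-directions (GR (2)), `σ - ρ` by the direction `σ`; `E₁` with `σ - ρ` fixed:
directions `a, b`, or if `(a,1+tb) = 0`: `ν ≠ 0`, so `ρ = σ ≠ 0`: direction `n`. -/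
def StTHH : Prop := ∀ U : Set ℂ, IsOpen U → (0 : ℂ) ∉ U →
  Tame (HH U) (fun z => (EE1 (pr10 z), EE2 (pr10 z)))

/-- H1.  The part `E ≠ 0`.
PROOF.  HEQ: section `z ↦ (z, (σ-ρ) conj E₁ / |E|², (σ-ρ) conj E₂ / |E|²)`, `|E|² = |E₁|² + |E₂|²`;
homotopy linear in `w₁, w₂`. -/
def StH1 : Prop := ∀ U : Set ℂ,
  WE {z | z ∈ HH U ∧ (EE1 (pr10 z), EE2 (pr10 z)) ≠ 0} {z | z ∈ C10 U ∧ (EE1 z, EE2 z) ≠ 0} pr10

/-- H0.  The part `E = 0`.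
PROOF.  There `F = -(σ - ρ)`, so the source is `{z : pr10 z ∈ W_G}`, homotopy equivalent to `W_G` by
`pr10` (section `w₁ = w₂ = 0`); then T5 and CMP (with CGR). -/
def StH0 : Prop := ∀ U : Set ℂ, Adm U →
  WE {z | z ∈ HH U ∧ (EE1 (pr10 z), EE2 (pr10 z)) = 0} {z | z ∈ C10 U ∧ (EE1 z, EE2 z) = 0} pr10

/-- T6.  PROOF.  GL with `g = (E₁, E₂)`: TE, THH, H0, H1. -/
def StT6 : Prop := ∀ U : Set ℂ, Adm U → WE (HH U) (C10 U) pr10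

/-- `Y` over `U`. -/
def YU (U : Set ℂ) : Set (Fin 2 ⊕ Fin 12 → ℂ) := {y | y ∈ YY FP ∧ y (Sum.inr 2) ∈ U}

/-- The coordinates `(U, z)` of a point of `Y`. -/
def toY (y : Fin 2 ⊕ Fin 12 → ℂ) : ℂ × (Fin 12 → ℂ) := (y (Sum.inl 0), fun j => y (Sum.inr j))

/-- The coordinate `t` of a point of `Y`. -/
def tY (y : Fin 2 ⊕ Fin 12 → ℂ) : ℂ := y (Sum.inr 2)

/-- EV.  PROOF.  `eval z` is an algebra map, it sends `X j` to `z j` and commutes with `kx, ky, kz`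
(evaluations of fixed polynomials); unfold `FP`, `FF`, `E1`, `E2`. -/
def StEV : Prop := ∀ z : Fin 12 → ℂ, MvPolynomial.eval z FP = FF z

/-- TYU.  Tameness of `U` on `Y`, from `TgtZ`.
PROOF.  TMC with `e = U V - F`, `Ω = {t ∈ T}`, `g = U`.  At a zero: `U = 0`, `F(z) = 0`, so some
`∂_j F(z) ≠ 0` (TgtZ = SmZ FP); direction of `U` first, then the direction `j` of `z`. -/
def StTYU : Prop := ∀ U : Set ℂ, IsOpen U → Tame (YU U) (fun y => y (Sum.inl 0))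

/-- TCU.  PROOF.  TMC with trivial `e`; `(U, z) ↦ U` is linear and surjective. -/
def StTCU : Prop := ∀ U : Set ℂ, IsOpen U →
  Tame {q : ℂ × (Fin 12 → ℂ) | q.2 2 ∈ U} (fun q => q.1)

/-- Y1.  The part `U ≠ 0`.  PROOF.  Homeomorphism, `V = F(z)/U`.  WCG (2). -/
def StY1 : Prop := ∀ U : Set ℂ, WE {y | y ∈ YU U ∧ y (Sum.inl 0) ≠ 0}
  {q : ℂ × (Fin 12 → ℂ) | q.2 2 ∈ U ∧ q.1 ≠ 0} toY

/-- Y0.  The part `U = 0`.
PROOF.  `q ↦ pr10 q.2` from `{q.2 2 ∈ U, q.1 = 0}` to `C10 U` is a homotopy equivalence (scale `w₁,w₂`),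
`y ↦ z` from the source to `HH U` is one (scale `V`), `HH U → C10 U` is WE by T6.  CMP, CN2. -/
def StY0 : Prop := ∀ U : Set ℂ, Adm U → WE {y | y ∈ YU U ∧ y (Sum.inl 0) = 0}
  {q : ℂ × (Fin 12 → ℂ) | q.2 2 ∈ U ∧ q.1 = 0} toY

/-- T6Y.  PROOF.  GL with `f = toY`, `g = fst`: TYU, TCU, Y0, Y1: `YU U → {q.2 2 ∈ U}` is WE.  Then
`q ↦ q.2 2` is a homotopy equivalence to `U`.  CMP, CGR. -/
def StT6Y : Prop := ∀ U : Set ℂ, Adm U → WE (YU U) U tY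

/-! ### T7 -/

/-- ADM.  PROOF.  `s t = t ^ (1/2)` on the slit plane, `s t = I * (-t) ^ (1/2)` on its negative. -/
def StADM : Prop := Adm Complex.slitPlane ∧ Adm {t | -t ∈ Complex.slitPlane} ∧
  Adm (Complex.slitPlane ∩ {t | -t ∈ Complex.slitPlane})

/-- YT.  `Y` over `t ≠ 0`.
PROOF.  GLU with the opens `t ∈ slit plane`, `-t ∈ slit plane` on both sides, T6Y and ADM. -/
def StYT : Prop := WE {y | y ∈ YY FP ∧ tY y ≠ 0} {t : ℂ | t ≠ 0} tY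

/-- TYT.  Tameness of `t` on `Y`, and of the identity of `ℂ`.
PROOF.  TMC with `Ω = univ`, `e = U V - F`, `g = t`.  At a zero with `t = 0`, directions other than
`t`: `∂_y F = w₂` (the coefficient of `y` in `E₂` is 1 at `t = 0`); if `w₂ = 0`:
`∂_b F = 2 w₁`; if also `w₁ = 0`: `∂_σ F = -1`.  Identity: trivial `e`. -/
def StTYT : Prop := Tame (YY FP) tY ∧ Tame (univ : Set ℂ) (fun t => t)

/-- Y00.  The fibre `t = 0` is contractible.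
PROOF.  For `t = 0`: `ν = 2b - a²`, `κ = -kz(a,b,0)²`, `E₁ = 2b - a² - ρn - σμ`,
`E₂ = -μnκ + y - x + σ(-2μ kz w - ρ w²)`.  The map from `Fin 12 → ℂ`,
`(U, V, a, e₁, ρ, n, μ, x, e₂, w, w₁, w₂)` to the fibre with `σ = e₁w₁ + e₂w₂ + ρ - UV`,
`b = (e₁ + a² + ρn + σμ)/2`, `y = e₂ + μnκ + x - σ(-2μ kz w - ρw²)` is a homeomorphism (inverse:
read off `E₁`, `E₂`).  So the fibre is WC by WCG (2) and WCA (1), (4); then WE to the point set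
`{0}` by WCA (2). -/
def StY00 : Prop := WE {y | y ∈ YY FP ∧ tY y = 0} {t : ℂ | t = 0} tY

/-- T7.  PROOF.  GL with `f = tY`, `M = univ`, `g = id`: TYT, Y00, YT: `Y → ℂ` is WE.  WCA (1), (3). -/
def StT7 : Prop := WC (YY FP)

/-- WCN.  From cubes to spheres.
PROOF.  In the sup norm the closed unit ball of `Fin k → ℝ` is `[-1,1]ᵏ` and the sphere is its
boundary (empty for `k = 0`).  Rescale `u ↦ 2u - 1` and use WCA (5) for the complexes of BCX, or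
directly the definition of WC.  Extend `v` to a total function by a point of `Y`. -/
def StWCN : Prop := ∀ (E : Type) [TopologicalSpace E] (Y : Set E), WC Y → WCon Y

end

end Pool.Agent.Helper84.FX
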