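import Pool.Agent.Helper84.FX.StX

/-!
# Project FX (MP_3bffab_ag), module TWS: tameness of sigma on the part rho nonzero of W (after helper43's TWR)
-/

set_option autoImplicit false

namespace Pool.Agent.Helper84.FX

open Pool.Agent.Helper72.FX

/-- the derivative in the direction `v`, when the function is quadratic along the line -/
private theorem fd_line {f : (Fin 10 → ℂ) → ℂ} {x v : Fin 10 → ℂ} (hf : DifferentiableAt ℂ f x)
    {d e : ℂ} (h : ∀ s : ℂ, f (x + s • v) = f x + s * d + s ^ 2 * e) : fderiv ℂ f x v = d := by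
  have h1 : HasDerivAt (fun s : ℂ => f x + s * d + s ^ 2 * e) d 0 := by
    have h2 : HasDerivAt (fun s : ℂ => f x + s * d + s ^ 2 * e)
        (0 + 1 * d + ((2 : ℕ) : ℂ) * (0 : ℂ) ^ (2 - 1) * e) 0 :=
      ((hasDerivAt_const (0 : ℂ) (f x)).fun_add ((hasDerivAt_id' (0 : ℂ)).mul_const d)).fun_add
        ((hasDerivAt_pow 2 (0 : ℂ)).mul_const e)
    have e2 : 0 + 1 * d + ((2 : ℕ) : ℂ) * (0 : ℂ) ^ (2 - 1) * e = d := by
      norm_num
    rw [e2] at h2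
    exact h2
  have h3 : HasLineDerivAt ℂ f d x v := by
    unfold HasLineDerivAt
    have : (fun s : ℂ => f (x + s • v)) = fun s : ℂ => f x + s * d + s ^ 2 * e := funext h
    rw [this]
    exact h1
  exact (hf.hasFDerivAt.hasLineDerivAt v).unique h3

/-- a triangular system -/
private theorem surj_of {L1 L2 L3 : (Fin 10 → ℂ) →L[ℂ] ℂ} {v1 v2 v3 : Fin 10 → ℂ}
    (h1 : L1 v1 ≠ 0) (h13 : L3 v1 = 0) (h2 : L2 v2 ≠ 0) (h21 : L1 v2 = 0) (h23 : L3 v2 = 0)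
    (h3 : L3 v3 = 1) :
    Function.Surjective (fun v => ((L1 v, L2 v), L3 v)) := by
  rintro ⟨⟨al, be⟩, ga⟩
  let s : ℂ := (al - ga * L1 v3) / L1 v1
  let t : ℂ := (be - ga * L2 v3 - s * L2 v1) / L2 v2
  refine ⟨ga • v3 + s • v1 + t • v2, ?_⟩
  have e1 : L1 (ga • v3 + s • v1 + t • v2) = al := by
    simp only [map_add, map_smul, smul_eq_mul, h21, mul_zero, add_zero, s]
    field_simp
    ring
  have e2 : L2 (ga • v3 + s • v1 + t • v2) = be := by
    simp only [map_add, map_smul, smul_eq_mul, t]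
    field_simp
    ring
  have e3 : L3 (ga • v3 + s • v1 + t • v2) = ga := by
    simp only [map_add, map_smul, smul_eq_mul, h13, h23, h3]
    ring
  show ((L1 (ga • v3 + s • v1 + t • v2), L2 (ga • v3 + s • v1 + t • v2)),
    L3 (ga • v3 + s • v1 + t • v2)) = _
  rw [e1, e2, e3]

private theorem EE1_cd : ContDiff ℂ (⊤ : ℕ∞) EE1 := by
  have : EE1 = fun z : Fin 10 → ℂ =>
      2 * z 1 + z 2 * z 1 ^ 2 - z 0 ^ 2 - z 3 * z 4 - z 5 * z 6 := by
    funext z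
    simp only [EE1, E1, nu]
  rw [this]
  fun_prop

private theorem comb_cd {A B C D : (Fin 10 → ℂ) → ℂ} (hA : ContDiff ℂ (⊤ : ℕ∞) A)
    (hB : ContDiff ℂ (⊤ : ℕ∞) B) (hC : ContDiff ℂ (⊤ : ℕ∞) C) (hD : ContDiff ℂ (⊤ : ℕ∞) D) :
    ContDiff ℂ (⊤ : ℕ∞) (fun z : Fin 10 → ℂ => -(z 6 * z 4 * D z) + (z 8 - z 7) +
        z 5 * (z 2 * z 6 * A z * z 8 + z 2 * z 6 * B z * z 7 +
        z 2 * z 3 * z 7 * z 8 - 2 * z 6 * C z * z 9 - z 3 * z 9 ^ 2)) := by
  fun_prop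

private theorem EE2_eq : EE2 = fun z : Fin 10 → ℂ =>
    -(z 6 * z 4 * kappa (z 0) (z 1) (z 2)) + (z 8 - z 7) +
        z 5 * (z 2 * z 6 * kx (z 0) (z 1) (z 2) * z 8 + z 2 * z 6 * ky (z 0) (z 1) (z 2) * z 7 +
        z 2 * z 3 * z 7 * z 8 - 2 * z 6 * kz (z 0) (z 1) (z 2) * z 9 - z 3 * z 9 ^ 2) := by
  funext z
  unfold EE2 E2
  rfl

private theorem pcd :
    ContDiff ℂ (⊤ : ℕ∞) (fun z : Fin 10 → ℂ => ((z 0, z 1, z 2) : ℂ × ℂ × ℂ)) := by
  fun_prop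

private theorem kcd {k : ℂ × ℂ × ℂ → ℂ} (h : ContDiff ℂ (⊤ : ℕ∞) k) :
    ContDiff ℂ (⊤ : ℕ∞) (fun z : Fin 10 → ℂ => k (z 0, z 1, z 2)) := h.comp pcd

private theorem EE2_cd (hK : StKSM) : ContDiff ℂ (⊤ : ℕ∞) EE2 := by
  have h1 := kcd hK.1
  have h2 := kcd hK.2.1
  have h3 := kcd hK.2.2.1
  have h4 := kcd hK.2.2.2.1
  rw [EE2_eq]
  exact comb_cd h1 h2 h3 h4

theorem hTWS : StTMC → StKSM → StGR → StTWS := by
  intro hT hK hG U hU h0
  have c1 := EE1_cd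
  have c2 := EE2_cd hK
  have hΩ : IsOpen {z : Fin 10 → ℂ | z 2 ∈ U ∧ z 3 ≠ 0} :=
    (hU.preimage (continuous_apply 2)).inter
      (isOpen_ne.preimage (continuous_apply (3 : Fin 10)))
  have key := hT (Fin 10 → ℂ) ℂ (ℂ × ℂ) {z : Fin 10 → ℂ | z 2 ∈ U ∧ z 3 ≠ 0}
    (fun z => (EE1 z, EE2 z)) (fun z => z 5) hΩ
    (((c1.prodMk c2).restrict_scalars ℝ).of_le (by exact_mod_cast le_top)).contDiffOn
    (by
      have : ContDiff ℝ 1 (fun z : Fin 10 → ℂ => z 5) := by fun_prop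
      exact this.contDiffOn) ?_
  · have : {x : Fin 10 → ℂ | x ∈ {z : Fin 10 → ℂ | z 2 ∈ U ∧ z 3 ≠ 0} ∧ (EE1 x, EE2 x) = 0} =
        {z | z ∈ WW U ∧ z 3 ≠ 0} := by
      ext z
      simp only [WW, Set.mem_ofPred_eq, Prod.mk_eq_zero]
      tauto
    rw [this] at key
    exact key
  · intro x hx he hg
    have hx3 : x 3 ≠ 0 := hx.2
    have he1 : EE1 x = 0 := (Prod.mk_eq_zero.1 he).1
    have he2 : EE2 x = 0 := (Prod.mk_eq_zero.1 he).2
    have d1 : DifferentiableAt ℂ EE1 x := (c1.differentiable (by simp)).differentiableAt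
    have d2 : DifferentiableAt ℂ EE2 x := (c2.differentiable (by simp)).differentiableAt
    let P : (Fin 10 → ℂ) →L[ℂ] ℂ := ContinuousLinearMap.proj 5
    have hF : HasFDerivAt (𝕜 := ℂ) (fun y : Fin 10 → ℂ => ((EE1 y, EE2 y), y 5))
        (((fderiv ℂ EE1 x).prod (fderiv ℂ EE2 x)).prod P) x :=
      (d1.hasFDerivAt.prodMk d2.hasFDerivAt).prodMk P.hasFDerivAt
    have hR := (hF.restrictScalars ℝ).fderiv
    rw [hR]
    have P_s : ∀ i : Fin 10, i ≠ 5 → P (Pi.single i 1) = 0 := by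
      intro i hi
      show (Pi.single i (1 : ℂ) : Fin 10 → ℂ) 5 = 0
      exact Pi.single_eq_of_ne (Ne.symm hi) 1
    have o8 : fderiv ℂ EE1 x (Pi.single 8 1) = 0 := by
      refine fd_line d1 (d := 0) (e := 0) fun s => ?_
      simp [EE1]
    have w8 : fderiv ℂ EE2 x (Pi.single 8 1) =
        1 + x 5 * (x 2 * x 6 * kx (x 0) (x 1) (x 2) + x 2 * x 3 * x 7) := by
      refine fd_line d2 (e := 0) fun s => ?_
      simp [EE2, E2]
      ring
    have a4 : fderiv ℂ EE1 x (Pi.single 4 1) = - x 3 := by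
      refine fd_line d1 (e := 0) fun s => ?_
      simp [EE1, E1, nu]
      ring
    exact surj_of (v1 := Pi.single 4 1) (v2 := Pi.single 8 1) (v3 := Pi.single 5 1)
      (by rw [a4]; exact neg_ne_zero.2 hx3) (P_s 4 (by decide))
      (by
        have hg' : x 5 = 0 := hg
        rw [w8, hg', zero_mul, add_zero]
        exact one_ne_zero) o8 (P_s 8 (by decide))
      (show (Pi.single (5 : Fin 10) (1 : ℂ) : Fin 10 → ℂ) 5 = 1 by simp)

end Pool.Agent.Helper84.FX
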