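import Pool.Agent.Helper84.FX.StX
import Pool.Agent.Helper75.FX.M_RET
import Pool.Agent.Helper3.FX.M_HEP
import Pool.Agent.Helper10.FX.M_BHF
import Pool.Agent.Helper78.FX.M_CCT
import Pool.Agent.Helper98.FX.M_WEP
import Pool.Agent.Helper22.FX.M_IFC
import Pool.Agent.Helper25.FX.M_CPR
import Pool.Agent.Helper33.FX.M_LFT
import Pool.Agent.Helper70.FX.M_BCX
import Pool.Agent.Helper47.FX.M_CMP
import Pool.Agent.Helper16.FX.M_INJ
import Pool.Agent.Helper67.FX.M_CN2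
import Pool.Agent.Helper2.FX.M_HEQ
import Pool.Agent.Helper8.FX.M_CN3
import Pool.Agent.Helper9.FX.M_LBL
import Pool.Agent.Helper60.FX.M_GLU
import Pool.Agent.Helper34.FX.M_PRD
import Pool.Agent.Helper1.FX.M_WCA
import Pool.Agent.Helper2.FX.M_WCG
import Pool.Agent.Helper2.FX.M_TMC
import Pool.Agent.Helper13.FX.M_LM
import Pool.Agent.Helper32.FX.M_TLC
import Pool.Agent.Helper61.FX.M_GL
import Pool.Agent.Helper45.FX.M_TDM
import Pool.Agent.Helper61.FX.M_KF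
import Pool.Agent.Helper33.FX.M_KSM
import Pool.Agent.Helper55.FX.M_CGR
import Pool.Agent.Helper62.FX.M_QS
import Pool.Agent.Helper42.FX.M_GR
import Pool.Agent.Helper98.FX.M_DGW
import Pool.Agent.Helper47.FX.M_DMP
import Pool.Agent.Helper44.FX.M_TWG
import Pool.Agent.Helper34.FX.M_TNG
import Pool.Agent.Helper48.FX.M_A0
import Pool.Agent.Helper8.FX.M_T5A
import Pool.Agent.Helper71.FX.M_TNR
import Pool.Agent.Helper25.FX.M_TNS
import Pool.Agent.Helper76.FX.M_B0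
import Pool.Agent.Helper91.FX.M_B10
import Pool.Agent.Helper1.FX.M_T5B
import Pool.Agent.Helper88.FX.M_T5
import Pool.Agent.Helper73.FX.M_THH
import Pool.Agent.Helper75.FX.M_H1
import Pool.Agent.Helper2.FX.M_H0
import Pool.Agent.Helper85.FX.M_T6
import Pool.Agent.Helper58.FX.M_EV
import Pool.Agent.Helper82.FX.M_TYU
import Pool.Agent.Helper80.FX.M_TCU
import Pool.Agent.Helper63.FX.M_Y1
import Pool.Agent.Helper4.FX.M_Y0
import Pool.Agent.Helper90.FX.M_T6Y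
import Pool.Agent.Helper97.FX.M_ADM
import Pool.Agent.Helper66.FX.M_YT
import Pool.Agent.Helper86.FX.M_TYT
import Pool.Agent.Helper18.FX.M_T7
import Pool.Agent.Helper99.FX.M_WCN
import Pool.Agent.Helper79.FX.M_TZ
import Pool.Agent.Helper79.FX.M_KK
import Pool.Agent.Helper9.FX.All
import Pool.Agent.Helper84.FX.M_TWS
import Pool.Agent.Helper2.FX.M_B11
import Pool.Agent.Helper30.FX.M_Y00
import Pool.Agent.Helper29.FX.M_A1
import Pool.Agent.Helper84.FX.M_CEL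
import Pool.Agent.Helper28.FX.M_HTP
import Pool.Agent.Helper43.FX.M_TWR
import Pool.Agent.Helper89.FX.M_TE

/-!
# Project FX, chapter T: assembly.  `tgtT : TgtT`
-/

set_option autoImplicit false

namespace Pool.Agent.Helper84.FX

open Pool.Agent.Helper72.FX

theorem RET' : StRET := Pool.Agent.Helper75.FX.hRET
theorem HEP' : StHEP := Pool.Agent.Helper3.FX.hHEP RET'
theorem BHF' : StBHF := Pool.Agent.Helper10.FX.hBHF HEP'
theorem CCT' : StCCT := Pool.Agent.Helper78.FX.hCCT BHF'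
theorem WEP' : StWEP := Pool.Agent.Helper98.FX.hWEP HEP' CCT'
theorem IFC' : StIFC := Pool.Agent.Helper22.FX.hIFC
theorem CPR' : StCPR := Pool.Agent.Helper25.FX.hCPR
theorem BCX' : StBCX := Pool.Agent.Helper70.FX.hBCX IFC'
theorem CMP' : StCMP := Pool.Agent.Helper47.FX.hCMP CCT'
theorem INJ' : StINJ := Pool.Agent.Helper16.FX.hINJ
theorem CN2' : StCN2 := Pool.Agent.Helper67.FX.hCN2 INJ'
theorem LBL' : StLBL := Pool.Agent.Helper9.FX.hLBL
theorem PRD' : StPRD := Pool.Agent.Helper34.FX.hPRD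
theorem KF' : StKF := Pool.Agent.Helper61.FX.hKF Pool.Agent.Helper79.FX.hKK
theorem KSM' : StKSM := Pool.Agent.Helper33.FX.hKSM
theorem QS' : StQS := Pool.Agent.Helper62.FX.hQS KF'
theorem GR' : StGR := Pool.Agent.Helper42.FX.hGR KF'
theorem DMP' : StDMP := Pool.Agent.Helper47.FX.hDMP
theorem EV' : StEV := Pool.Agent.Helper58.FX.hEV
theorem ADM' : StADM := Pool.Agent.Helper97.FX.hADM

section
theorem CEL' : StCEL := hCEL IFC'
theorem LFT' : StLFT := Pool.Agent.Helper33.FX.hLFT IFC' CPR' CEL' WEP'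
theorem GLU' : StGLU := Pool.Agent.Helper60.FX.hGLU LBL' CEL' IFC' CPR' WEP'
theorem CN3' : StCN3 := Pool.Agent.Helper8.FX.hCN3 LFT' BCX' WEP' HEP' CCT'
theorem HTP' : StHTP := Pool.Agent.Helper28.FX.hHTP WEP' CCT'
theorem HEQ' : StHEQ := Pool.Agent.Helper2.FX.hHEQ HTP' INJ'
theorem CGR' : StCGR := Pool.Agent.Helper55.FX.hCGR HTP'
theorem DGW' : StDGW := Pool.Agent.Helper98.FX.hDGW HEQ'
theorem A0' : StA0 := Pool.Agent.Helper48.FX.hA0 HEQ' CMP' CN2' CGR' DMP'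
theorem B0' : StB0 := Pool.Agent.Helper76.FX.hB0 HEQ' CMP' CN2' CGR' DMP' KSM'
theorem B10' : StB10 := Pool.Agent.Helper91.FX.hB10 HEQ' CMP' CN2' CGR' DMP' KSM'
theorem H1' : StH1 := Pool.Agent.Helper75.FX.hH1 HEQ' KSM'
theorem WCA' : StWCA := Pool.Agent.Helper1.FX.hWCA HEQ' CN2' CMP' CN3' LFT'
theorem WCG' : StWCG := Pool.Agent.Helper2.FX.hWCG GLU' HEQ' CMP' CN2'
theorem TMC' : StTMC := Pool.Agent.Helper2.FX.hTMC (Pool.Agent.Helper13.FX.hLM HEQ')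
  (Pool.Agent.Helper32.FX.hTLC WCG' CMP') GLU' WCG'
theorem GL' : StGL := Pool.Agent.Helper61.FX.hGL GLU' PRD' CMP' CN3' HTP'
theorem TDM' : StTDM :=
  Pool.Agent.Helper45.FX.hTDM GLU' CMP' CN2' CN3' HEQ' HTP'
theorem PHI' : StPHI := Pool.Agent.Helper9.FX.xPHI GLU' CN2' HTP' HEQ'
theorem WCN' : StWCN := Pool.Agent.Helper99.FX.hWCN BCX' WCA'
theorem TWG' : StTWG := Pool.Agent.Helper44.FX.hTWG TMC' KSM' GR'
theorem TNG' : StTNG := Pool.Agent.Helper34.FX.hTNG TMC' GR'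
theorem TNR' : StTNR := Pool.Agent.Helper71.FX.hTNR TMC' GR'
theorem TNS' : StTNS := Pool.Agent.Helper25.FX.hTNS TMC' GR'
theorem THH' : StTHH := Pool.Agent.Helper73.FX.hTHH TMC' KSM' GR'
theorem TYU' : StTYU := Pool.Agent.Helper82.FX.hTYU TMC' KSM' EV' Pool.Agent.Helper79.FX.hTZ
theorem TCU' : StTCU := Pool.Agent.Helper80.FX.hTCU TMC'
theorem TYT' : StTYT := Pool.Agent.Helper86.FX.hTYT TMC' KSM' EV'
theorem Y1' : StY1 := Pool.Agent.Helper63.FX.hY1 WCG' EV' KSM'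

theorem A1' : StA1 :=
  Pool.Agent.Helper29.FX.hA1 HEQ' CMP' CN2' CGR' PRD' WCG' PHI' QS' KSM' DMP'

theorem B11' : StB11 :=
  Pool.Agent.Helper2.FX.hB11 HEQ' CMP' CN2' CGR' PRD' WCG' PHI' QS' KSM' DMP'
theorem Y00' : StY00 := Pool.Agent.Helper30.FX.hY00 WCG' WCA' EV' KSM'

theorem T5A' : StT5A := Pool.Agent.Helper8.FX.hT5A GL' TDM'
  TWG' TNG' A0'
  A1' DMP'
theorem T5B' : StT5B := Pool.Agent.Helper1.FX.hT5B GL' TDM'
  (Pool.Agent.Helper43.FX.hTWR TMC' KSM' GR') TNR' (hTWS TMC' KSM' GR')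
  TNS' B0' B10'
  B11' DMP'
theorem T5' : StT5 := Pool.Agent.Helper88.FX.hT5 DGW' T5A'
  T5B' CMP' CN3' CGR' DMP'
theorem T6' : StT6 := Pool.Agent.Helper85.FX.hT6 GL' (Pool.Agent.Helper89.FX.hTE TMC' KSM' GR')
  THH' (Pool.Agent.Helper2.FX.hH0 HEQ'
    T5' CMP' CGR') H1'
theorem T6Y' : StT6Y := Pool.Agent.Helper90.FX.hT6Y GL' TYU'
  TCU' (Pool.Agent.Helper4.FX.hY0 HEQ' CMP' CN2' CGR'
    T6' EV' KSM') Y1' HEQ' CMP' CGR'
theorem T7' : StT7 := Pool.Agent.Helper18.FX.hT7 GL' TYT'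
  Y00'
  (Pool.Agent.Helper66.FX.hYT GLU' T6Y' ADM')
  WCA'
theorem tgtT : TgtT :=
  WCN' _ _ T7'
end

end Pool.Agent.Helper84.FX
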