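import Pool.Agent.Helper84.FX.StT

/-!
# Project FX, module CEL: extension cell by cell
-/

set_option autoImplicit false

namespace Pool.Agent.Helper84.FX

open Set

private theorem cel_aux (hI : StIFC) (d : ℕ) (C : Finset (Cel d)) (hC : Cx C)
    (W : Type) (good : Set (Fin d → ℝ) → ((Fin d → ℝ) → W) → Prop)
    (hcg : ∀ K Φ Φ', good K Φ → (∀ u ∈ K, Φ' u = Φ u) → good K Φ')
    (hun : ∀ K K' Φ, IsCompact K → IsCompact K' → good K Φ → good K' Φ → good (K ∪ K') Φ)
    (hsub : ∀ K K' Φ, K' ⊆ K → good K Φ → good K' Φ) (n : ℕ) :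
    ∀ D : Finset (Cel d), Cx D → D ⊆ C → (C.filter (fun c => c ∉ D)).card = n →
    (∀ e ∈ C, e ∉ D → ∀ Φ, good (cbd e) Φ → ∃ Φ', good (cel e) Φ' ∧ ∀ u ∈ cbd e, Φ' u = Φ u) →
    ∀ Φ₀, good (spt D) Φ₀ → ∃ Φ, good (spt C) Φ ∧ ∀ u ∈ spt D, Φ u = Φ₀ u := by
  classical
  obtain ⟨i1, i2, i3, i4, i5⟩ := hI d
  have hcpt : ∀ D : Finset (Cel d), IsCompact (spt D) := by
    intro D
    have : spt D = ⋃ c ∈ D, cel c := by
      ext u
      simp [spt]
    rw [this]
    exact D.isCompact_biUnion fun c _ => (i4 c).1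
  induction n with
  | zero =>
    intro D _ hDC hn _ Φ₀ h0
    have hCD : C = D := by
      apply Finset.Subset.antisymm _ hDC
      intro c hc
      by_contra hcD
      rw [Finset.card_eq_zero] at hn
      have : c ∈ C.filter (fun c => c ∉ D) := Finset.mem_filter.2 ⟨hc, hcD⟩
      rw [hn] at this
      exact absurd this (Finset.notMem_empty _)
    subst hCD
    exact ⟨Φ₀, h0, fun _ _ => rfl⟩
  | succ n ih =>
    intro D hD hDC hn hext Φ₀ h0
    have hne : (C.filter (fun c => c ∉ D)).Nonempty := by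
      rw [← Finset.card_pos]
      omega
    obtain ⟨e, heC, hmin⟩ := Finset.exists_min_image _ (fun c : Cel d => c.2.card) hne
    obtain ⟨heC, heD⟩ := Finset.mem_filter.1 heC
    -- faces of `e` are in `D`
    have hface : ∀ e' : Cel d, cel e' ⊆ cel e → e' ≠ e → e' ∈ D := by
      intro e' h1 h2
      by_contra h3
      have h4 := hmin e' (Finset.mem_filter.2 ⟨hC e heC e' h1, h3⟩)
      have h5 := (i5 e e' h1 h2).2
      omega
    have hbd : cbd e ⊆ spt D := by
      intro u hu
      obtain ⟨e', h1, h2, h3, -⟩ := i2 e u hu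
      exact ⟨e', hface e' h2 h3, h1⟩
    obtain ⟨Φ', g', hΦ'⟩ := hext e heC heD Φ₀ (hsub _ _ _ hbd h0)
    let Φ₁ : (Fin d → ℝ) → W := fun u => if u ∈ cel e then Φ' u else Φ₀ u
    have hΦ₁e : ∀ u ∈ cel e, Φ₁ u = Φ' u := fun u hu => by
      show (if u ∈ cel e then Φ' u else Φ₀ u) = Φ' u
      rw [if_pos hu]
    have hΦ₁D : ∀ u ∈ spt D, Φ₁ u = Φ₀ u := by
      intro u hu
      show (if u ∈ cel e then Φ' u else Φ₀ u) = Φ₀ u
      by_cases h : u ∈ cel e
      · rw [if_pos h]
        by_cases hb : u ∈ cbd e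
        · exact hΦ' u hb
        · exfalso
          obtain ⟨e', he', hu'⟩ := hu
          exact heD (hD e' he' e (i1 e e' u h hb hu'))
      · rw [if_neg h]
    let D' : Finset (Cel d) := insert e D
    have hspt : spt D' = spt D ∪ cel e := by
      ext u
      constructor
      · rintro ⟨c, hc, hu⟩
        rcases Finset.mem_insert.1 hc with rfl | hc
        · exact Or.inr hu
        · exact Or.inl ⟨c, hc, hu⟩
      · rintro (⟨c, hc, hu⟩ | hu)
        · exact ⟨c, Finset.mem_insert_of_mem hc, hu⟩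
        · exact ⟨e, Finset.mem_insert_self _ _, hu⟩
    have hD' : Cx D' := by
      intro c hc c' hcc
      rcases Finset.mem_insert.1 hc with rfl | hc
      · by_cases h : c' = c
        · subst h
          exact Finset.mem_insert_self _ _
        · exact Finset.mem_insert_of_mem (hface c' hcc h)
      · exact Finset.mem_insert_of_mem (hD c hc c' hcc)
    have hD'C : D' ⊆ C := Finset.insert_subset heC hDC
    have hn' : (C.filter (fun c => c ∉ D')).card = n := by
      have h1 : C.filter (fun c => c ∉ D') = (C.filter (fun c => c ∉ D)).erase e := by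
        ext c
        simp only [D', Finset.mem_filter, Finset.mem_insert, Finset.mem_erase, not_or]
        tauto
      rw [h1, Finset.card_erase_of_mem (Finset.mem_filter.2 ⟨heC, heD⟩), hn]
      omega
    have hgood : good (spt D') Φ₁ := by
      rw [hspt]
      exact hun _ _ _ (hcpt D) (i4 e).1 (hcg _ _ _ h0 hΦ₁D) (hcg _ _ _ g' hΦ₁e)
    obtain ⟨Φ, hΦ, hΦD⟩ := ih D' hD' hD'C hn'
      (fun c hc hcD => hext c hc (fun h => hcD (Finset.mem_insert_of_mem h))) Φ₁ hgood
    refine ⟨Φ, hΦ, fun u hu => ?_⟩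
    rw [hΦD u (by rw [hspt]; exact Or.inl hu), hΦ₁D u hu]

theorem hCEL : StIFC → StCEL := by
  intro hI d C D hC hD hDC W good hcg hun hsub hext Φ₀ h0
  exact cel_aux hI d C hC W good hcg hun hsub _ D hD hDC rfl hext Φ₀ h0

end Pool.Agent.Helper84.FX
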