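import Pool.Agent.Helper84.FX.StT

/-!
# Project FX, chapter T, file G: tame functions, gluing along a zero set, double cylinders

`TT M g`: pairs `(x, v)` with `‖v‖ ≤ 1` and `g x = ‖g x‖ v`.  It replaces the zero set `Z` of `g` by
`Z × disc`.  `Tame M g`: this does not change the weak type.
-/

set_option autoImplicit false

namespace Pool.Agent.Helper84.FX

open Set

/-- The zero set of `g` is replaced by its product with the closed unit ball. -/
def TT {E V : Type} [TopologicalSpace E] [NormedAddCommGroup V] [NormedSpace ℝ V] (M : Set E)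
    (g : E → V) : Set (E × V) :=
  {q | q.1 ∈ M ∧ ‖q.2‖ ≤ 1 ∧ g q.1 = ‖g q.1‖ • q.2}

/-- Tame functions. -/
def Tame {E V : Type} [TopologicalSpace E] [NormedAddCommGroup V] [NormedSpace ℝ V] (M : Set E)
    (g : E → V) : Prop :=
  ContinuousOn g M ∧ WE (TT M g) M Prod.fst ∧
    WE {x | x ∈ M ∧ g x ≠ 0} {q | q ∈ TT M g ∧ q.2 ≠ 0} (fun x => (x, ‖g x‖⁻¹ • g x))

/-- The double mapping cylinder of `N₁ ⊇ N₁ ∩ N₂ ⊆ N₂`. -/
def DM {E : Type} (N₁ N₂ : Set E) : Set (E × ℝ) :=
  {q | 0 ≤ q.2 ∧ q.2 ≤ 1 ∧ (q.2 < 1 → q.1 ∈ N₁) ∧ (0 < q.2 → q.1 ∈ N₂)}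

/-- GL.  Gluing along a zero set.
PROOF.  `Tf (x, v) = (f x, v)` maps `TT N (g ∘ f)` to `TT M g`.  Claim: it is WE.  GLU with the opens
`v ≠ 0` and `‖v‖ < 1` on both sides.  In `TT` the condition `‖v‖ < 1` forces `g = 0`, so the second
parts are `Z_N × (open ball)`, `Z_M × (open ball)` and the intersections are `Z × (open ball minus
0)`: PRD for the WE `Z_N → Z_M`.  First parts: `i_N : {g f ≠ 0} → {v ≠ 0}` and `i_M` are WE
(tameness), `Tf ∘ i_N = i_M ∘ f` on `{g f ≠ 0}`, which is WE by CMP, so `Tf` is WE by CN3 (and HTP for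
equality on the set).  Finally `fst ∘ Tf = f ∘ fst` is WE by CMP, and `fst : TT N → N` is WE, so `f`
is WE by CN3. -/
def StGL : Prop := ∀ (E F V : Type) [TopologicalSpace E] [TopologicalSpace F] [Nonempty E]
    [NormedAddCommGroup V] [NormedSpace ℝ V] (N : Set E) (M : Set F) (f : E → F) (g : F → V),
    Mp N M f → Tame M g → Tame N (fun x => g (f x)) →
    WE {x | x ∈ N ∧ g (f x) = 0} {y | y ∈ M ∧ g y = 0} f →
    WE {x | x ∈ N ∧ g (f x) ≠ 0} {y | y ∈ M ∧ g y ≠ 0} f → WE N M f

/-- TDM.  Tame functions on double mapping cylinders.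
PROOF.  Cover by the open sets `r < 1` and `0 < r` (`r` the real coordinate) in `DM`, `TT (DM)` and
the two spaces of the second condition, and use GLU.  The part `r < 1` of `DM` retracts to
`N₁ × 0` by `(x, r) ↦ (x, τ r)`, the part `0 < r` to `N₂ × 1`, the part `0 < r < 1` is
`(N₁ ∩ N₂) × (0,1)`; the same homotopies (not moving `x` and `v`) work in `TT (DM)` and the other two
spaces.  So over each part the map is WE by the hypothesis for `N₁`, `N₂`, `N₁ ∩ N₂` (the projections
`(x, r) ↦ x` to `N₁` etc. are homotopy equivalences; use CN2 with CMP, or HEQ, CMP and HTP). -/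
def StTDM : Prop := ∀ (E V : Type) [TopologicalSpace E] [Nonempty E] [NormedAddCommGroup V]
    [NormedSpace ℝ V] (N₁ N₂ : Set E) (g : E → V), Tame N₁ g → Tame N₂ g → Tame (N₁ ∩ N₂) g →
    ContinuousOn g (N₁ ∪ N₂) → Tame (DM N₁ N₂) (fun q => g q.1)

/-- LGI.  Local to global for a cover closed under finite intersections.
PROOF.  As GLU with more labels: for `a, b` choose `N` so large that every small cube of the grid is
mapped by `b` into a member `O_k` of the family (Lebesgue number for the cover `b⁻¹ O`).  CEL as in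
GLU, with the condition: for `u` in `K ∩ Q_k`: `f (c u) ∈ O_k` and `H(s,u) ∈ O_k`; for a cell `e` use
the WE over the intersection of the `O_k` for the small cubes `Q_k ⊇ e` (finitely many, not
empty), which belongs to the family. -/
def StLGI : Prop := ∀ (E F : Type) [TopologicalSpace E] [TopologicalSpace F] (X : Set E) (Y : Set F)
    (f : E → F) (U : Set (Set F)), Mp X Y f → (∀ O ∈ U, IsOpen O) →
    (∀ O ∈ U, ∀ O' ∈ U, O ∩ O' ∈ U) → (∀ y ∈ Y, ∃ O ∈ U, y ∈ O) →
    (∀ O ∈ U, WE {x | x ∈ X ∧ f x ∈ O} (Y ∩ O) f) → WE X Y f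

/-- TMC.  A function on a complete intersection which is submersive along its zero set is tame.
PROOF.  (helper2 writes the decomposition.)  Local charts by the implicit function theorem. -/
def StTMC : Prop := ∀ (E V V' : Type) [NormedAddCommGroup E] [NormedSpace ℝ E]
    [FiniteDimensional ℝ E] [NormedAddCommGroup V] [NormedSpace ℝ V] [FiniteDimensional ℝ V]
    [NormedAddCommGroup V'] [NormedSpace ℝ V'] [FiniteDimensional ℝ V'] (Ω : Set E) (e : E → V')
    (g : E → V), IsOpen Ω → ContDiffOn ℝ 1 e Ω → ContDiffOn ℝ 1 g Ω →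
    (∀ x ∈ Ω, e x = 0 → g x = 0 → Function.Surjective (fderiv ℝ (fun y => (e y, g y)) x)) →
    Tame {x | x ∈ Ω ∧ e x = 0} g

end Pool.Agent.Helper84.FX
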