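import Mathlib

/-!
# Project FX, chapter T: weak equivalences (cubes, cells, gluing)

Spaces are subsets `X : Set E` of topological spaces `E : Type`, maps are functions on the ambient
type.  `Mp X Y f`: `f` is continuous on `X` and maps `X` to `Y`.  `WE X Y f`: weak equivalence.
Paper: store file MP_3bffab-full.md, section 5.  Module `XXX` proves `hXXX : StXXX` from earlier
statements of this file (give them as hypotheses or import the module that proves them).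
-/

set_option autoImplicit false

namespace Pool.Agent.Helper84.FX

open Set

/-- The unit interval. -/
abbrev II : Set ℝ := Icc (0 : ℝ) 1

/-- The closed unit cube. -/
def Cb (n : ℕ) : Set (Fin n → ℝ) := {u | ∀ i, 0 ≤ u i ∧ u i ≤ 1}

/-- The boundary of the cube (empty for `n = 0`). -/
def Bd (n : ℕ) : Set (Fin n → ℝ) := {u | u ∈ Cb n ∧ ∃ i, u i = 0 ∨ u i = 1}

/-- `f` is a continuous map from the set `A` to the set `B`. -/
def Mp {E F : Type} [TopologicalSpace E] [TopologicalSpace F] (A : Set E) (B : Set F) (f : E → F) :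
    Prop :=
  ContinuousOn f A ∧ MapsTo f A B

/-- Weak equivalence: squares `(∂Iⁿ → X, Iⁿ → Y)` lift, exactly on the boundary and up to homotopy
relative to the boundary. -/
def WE {E F : Type} [TopologicalSpace E] [TopologicalSpace F] (X : Set E) (Y : Set F) (f : E → F) :
    Prop :=
  Mp X Y f ∧ ∀ (n : ℕ) (a : (Fin n → ℝ) → E) (b : (Fin n → ℝ) → F),
    Mp (Bd n) X a → Mp (Cb n) Y b → (∀ u ∈ Bd n, b u = f (a u)) →
    ∃ (c : (Fin n → ℝ) → E) (H : ℝ × (Fin n → ℝ) → F),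
      Mp (Cb n) X c ∧ (∀ u ∈ Bd n, c u = a u) ∧ Mp (II ×ˢ Cb n) Y H ∧
      (∀ u ∈ Cb n, H (0, u) = b u) ∧ (∀ u ∈ Cb n, H (1, u) = f (c u)) ∧
      ∀ s ∈ II, ∀ u ∈ Bd n, H (s, u) = b u

/-- Two maps `X → Y` are homotopic. -/
def Htp {E F : Type} [TopologicalSpace E] [TopologicalSpace F] (X : Set E) (Y : Set F)
    (f g : E → F) : Prop :=
  ∃ H : ℝ × E → F, Mp (II ×ˢ X) Y H ∧ (∀ x ∈ X, H (0, x) = f x) ∧ ∀ x ∈ X, H (1, x) = g x

/-- Weakly contractible: nonempty and `X → point` is a weak equivalence. -/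
def WC {E : Type} [TopologicalSpace E] (X : Set E) : Prop :=
  X.Nonempty ∧ WE X (univ : Set Unit) (fun _ => ())

/-- RET.  Retraction of `I × Iⁿ` onto `0 × Iⁿ ∪ I × ∂Iⁿ`.
PROOF.  Put `w = 2u - 1`, `|w|` the sup norm (0 if n = 0), `λ = 1 / max(|w|, (2-s)/2)` (the maximum
is at least 1/2, so `λ` is continuous, and `λ ≥ 1` because `|w| ≤ 1`, `(2-s)/2 ≤ 1`),
`r(s,w) = (2 + λ(s-2), λ w)` (projection from the point `(2, centre)`).  If the maximum is
`(2-s)/2` then the first coordinate is 0 and `|λw| ≤ 1`; otherwise `|λ w| = 1` and the first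
coordinate is in `[0, s]`.  If `s = 0` or `|w| = 1` then `λ = 1`. -/
def StRET : Prop := ∀ n : ℕ, ∃ r : ℝ × (Fin n → ℝ) → ℝ × (Fin n → ℝ),
  ContinuousOn r (II ×ˢ Cb n) ∧
  MapsTo r (II ×ˢ Cb n) ({q | q.1 = 0 ∧ q.2 ∈ Cb n} ∪ II ×ˢ Bd n) ∧
  (∀ u ∈ Cb n, r (0, u) = (0, u)) ∧ ∀ s ∈ II, ∀ u ∈ Bd n, r (s, u) = (s, u)

/-- HEP.  Homotopy extension for cubes, (1) starting at time 0, (2) starting at time 1.
PROOF.  (1) The map `g` on `0 × Iⁿ ∪ I × ∂Iⁿ` equal to `b` on the first and `K` on the second part is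
continuous (two closed sets); `H = g ∘ r` with `r` of RET.  (2) Replace `s` by `1 - s`. -/
def StHEP : Prop := ∀ (F : Type) [TopologicalSpace F] (Y : Set F) (n : ℕ) (b : (Fin n → ℝ) → F)
    (K : ℝ × (Fin n → ℝ) → F), Mp (Cb n) Y b → Mp (II ×ˢ Bd n) Y K →
  ((∀ u ∈ Bd n, K (0, u) = b u) → ∃ H : ℝ × (Fin n → ℝ) → F, Mp (II ×ˢ Cb n) Y H ∧
    (∀ u ∈ Cb n, H (0, u) = b u) ∧ ∀ s ∈ II, ∀ u ∈ Bd n, H (s, u) = K (s, u)) ∧
  ((∀ u ∈ Bd n, K (1, u) = b u) → ∃ H : ℝ × (Fin n → ℝ) → F, Mp (II ×ˢ Cb n) Y H ∧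
    (∀ u ∈ Cb n, H (1, u) = b u) ∧ ∀ s ∈ II, ∀ u ∈ Bd n, H (s, u) = K (s, u))

/-- BHF.  Changing the boundary track of a homotopy by a homotopy relative to the end points.
PROOF.  Apply HEP (1) to the cube `I^(n+1) = I × Iⁿ` (coordinates `Fin.cons s u`), the map `Φ` and
the homotopy `K(r, (s,u))` on its boundary: `Q(r,s,u)` if `u ∈ ∂Iⁿ`, `Φ(s,u)` if `s ∈ {0,1}`;
well defined and continuous (two closed sets).  `Φ'` = value at `r = 1`. -/
def StBHF : Prop := ∀ (F : Type) [TopologicalSpace F] (Y : Set F) (n : ℕ)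
    (Φ : ℝ × (Fin n → ℝ) → F) (Q : ℝ × ℝ × (Fin n → ℝ) → F),
  Mp (II ×ˢ Cb n) Y Φ → Mp (II ×ˢ II ×ˢ Bd n) Y Q →
  (∀ s ∈ II, ∀ u ∈ Bd n, Q (0, s, u) = Φ (s, u)) →
  (∀ r ∈ II, ∀ u ∈ Bd n, Q (r, 0, u) = Φ (0, u) ∧ Q (r, 1, u) = Φ (1, u)) →
  ∃ Φ' : ℝ × (Fin n → ℝ) → F, Mp (II ×ˢ Cb n) Y Φ' ∧
    (∀ u ∈ Cb n, Φ' (0, u) = Φ (0, u) ∧ Φ' (1, u) = Φ (1, u)) ∧
    ∀ s ∈ II, ∀ u ∈ Bd n, Φ' (s, u) = Q (1, s, u)

/-- CCT.  Concatenation of two homotopies with correction of the boundary track.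
(1) boundary tracks `k` and constant `k(1,·)`: result with track `k`.
(2) boundary tracks `k` and `k` backwards: result with constant track `k(0,·)`.
PROOF.  `Φ(s,u) = Φ₁(2s,u)` for `s ≤ 1/2`, `Φ₂(2s-1,u)` for `s ≥ 1/2`.  Apply BHF with
(1) `Q(r,s,u) = k(min((2-r)s, 1), u)`, (2) `Q(r,s,u) = k((1-r)(1-|2s-1|), u)`. -/
def StCCT : Prop := ∀ (F : Type) [TopologicalSpace F] (Y : Set F) (n : ℕ)
    (P R k : ℝ × (Fin n → ℝ) → F), Mp (II ×ˢ Cb n) Y P → Mp (II ×ˢ Cb n) Y R →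
  (∀ u ∈ Cb n, P (1, u) = R (0, u)) → (∀ s ∈ II, ∀ u ∈ Bd n, P (s, u) = k (s, u)) →
  ((∀ s ∈ II, ∀ u ∈ Bd n, R (s, u) = k (1, u)) →
    ∃ H : ℝ × (Fin n → ℝ) → F, Mp (II ×ˢ Cb n) Y H ∧ (∀ u ∈ Cb n, H (0, u) = P (0, u)) ∧
      (∀ u ∈ Cb n, H (1, u) = R (1, u)) ∧ ∀ s ∈ II, ∀ u ∈ Bd n, H (s, u) = k (s, u)) ∧
  ((∀ s ∈ II, ∀ u ∈ Bd n, R (s, u) = k (1 - s, u)) →
    ∃ H : ℝ × (Fin n → ℝ) → F, Mp (II ×ˢ Cb n) Y H ∧ (∀ u ∈ Cb n, H (0, u) = P (0, u)) ∧
      (∀ u ∈ Cb n, H (1, u) = R (1, u)) ∧ ∀ s ∈ II, ∀ u ∈ Bd n, H (s, u) = k (0, u))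

/-- The relative lifting property with a given homotopy `K` on the boundary. -/
def WR {E F : Type} [TopologicalSpace E] [TopologicalSpace F] (X : Set E) (Y : Set F) (f : E → F) :
    Prop :=
  ∀ (n : ℕ) (a : (Fin n → ℝ) → E) (b : (Fin n → ℝ) → F) (K : ℝ × (Fin n → ℝ) → F),
    Mp (Bd n) X a → Mp (Cb n) Y b → Mp (II ×ˢ Bd n) Y K →
    (∀ u ∈ Bd n, K (0, u) = b u) → (∀ u ∈ Bd n, K (1, u) = f (a u)) →
    ∃ (c : (Fin n → ℝ) → E) (H : ℝ × (Fin n → ℝ) → F),
      Mp (Cb n) X c ∧ (∀ u ∈ Bd n, c u = a u) ∧ Mp (II ×ˢ Cb n) Y H ∧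
      (∀ u ∈ Cb n, H (0, u) = b u) ∧ (∀ u ∈ Cb n, H (1, u) = f (c u)) ∧
      ∀ s ∈ II, ∀ u ∈ Bd n, H (s, u) = K (s, u)

/-- WEP.  A weak equivalence has the relative lifting property.
PROOF.  Extend `(b, K)` by HEP (1) to `P : I × Iⁿ → Y`, `b' = P(1,·)`, `b' = f a` on the boundary.
The definition of WE gives `c` and a homotopy `R` from `b'` to `f c` relative to the boundary.
Concatenate `P` and `R` by CCT (1) with `k = K`. -/
def StWEP : Prop := ∀ (E F : Type) [TopologicalSpace E] [TopologicalSpace F] (X : Set E) (Y : Set F)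
    (f : E → F), WE X Y f → WR X Y f

/-! ### Cells of the integer grid -/

/-- A cell of the grid: lower corner and set of directions. -/
abbrev Cel (d : ℕ) := (Fin d → ℤ) × Finset (Fin d)

/-- The closed cell. -/
def cel {d : ℕ} (c : Cel d) : Set (Fin d → ℝ) :=
  {u | ∀ i, (i ∈ c.2 → (c.1 i : ℝ) ≤ u i ∧ u i ≤ c.1 i + 1) ∧ (i ∉ c.2 → u i = c.1 i)}

/-- The boundary of the cell. -/
def cbd {d : ℕ} (c : Cel d) : Set (Fin d → ℝ) :=
  {u | u ∈ cel c ∧ ∃ i ∈ c.2, u i = c.1 i ∨ u i = c.1 i + 1}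

/-- A finite set of cells closed under faces. -/
def Cx {d : ℕ} (C : Finset (Cel d)) : Prop := ∀ c ∈ C, ∀ c' : Cel d, cel c' ⊆ cel c → c' ∈ C

/-- The underlying set of a set of cells. -/
def spt {d : ℕ} (C : Finset (Cel d)) : Set (Fin d → ℝ) := {u | ∃ c ∈ C, u ∈ cel c}

/-- IFC.  Elementary geometry of cells.
PROOF.  (1) Let `u` be in the cell `e` but not in its boundary, and in `e'`.  For a direction `i` of
`e`: `k_i < u_i < k_i + 1`, so `u_i` is not an integer, so `i` is a direction of `e'` with the same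
`k_i`.  For the other `i` all points of `e` have the same coordinate as `u`.  So `e ⊆ e'`.
(2) Decrease the direction set by `i` and take the corner `k` or `k + single i 1`.
(3) the coordinates: a cell with more directions is not contained; `cel c = cel c'` gives equal
directions (nonconstant coordinates) and equal minima.  (4) closed: finitely many closed conditions.
(5) if `cel c' ⊆ cel c`, `c' ≠ c` then `cel c' ⊆ cbd c`: by (1) a point of `cel c'` outside `cbd c`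
gives `cel c ⊆ cel c'`, so equality, so `c = c'` by (3); moreover `c'.2.card < c.2.card`. -/
def StIFC : Prop := ∀ d : ℕ,
  (∀ (e e' : Cel d) (u : Fin d → ℝ), u ∈ cel e → u ∉ cbd e → u ∈ cel e' → cel e ⊆ cel e') ∧
  (∀ (e : Cel d) (u : Fin d → ℝ), u ∈ cbd e → ∃ e' : Cel d, u ∈ cel e' ∧ cel e' ⊆ cel e ∧ e' ≠ e ∧
    cel e' ⊆ cbd e) ∧
  (∀ e e' : Cel d, cel e = cel e' → e = e') ∧
  (∀ e : Cel d, IsCompact (cel e) ∧ IsCompact (cbd e) ∧ (cel e).Nonempty) ∧
  (∀ e e' : Cel d, cel e' ⊆ cel e → e' ≠ e → cel e' ⊆ cbd e ∧ e'.2.card < e.2.card)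

/-- CPR.  Parametrisation of a cell by a standard cube.
PROOF.  Let `o : Fin card ≃ directions` (for instance `Finset.orderEmbOfFin` or `Finset.equivFin`).
`φ(u)_i = k_i + u_(o⁻¹ i)` for `i` a direction, `k_i` otherwise; `π(v)_j = v_(o j) - k_(o j)`. -/
def StCPR : Prop := ∀ (d : ℕ) (c : Cel d), ∃ (φ : (Fin c.2.card → ℝ) → (Fin d → ℝ))
    (π : (Fin d → ℝ) → (Fin c.2.card → ℝ)), Continuous φ ∧ Continuous π ∧
    (∀ u, π (φ u) = u) ∧ (∀ u ∈ Cb c.2.card, φ u ∈ cel c) ∧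
    (∀ v ∈ cel c, π v ∈ Cb c.2.card ∧ φ (π v) = v) ∧
    (∀ v ∈ cbd c, π v ∈ Bd c.2.card) ∧ ∀ u ∈ Bd c.2.card, φ u ∈ cbd c

/-- CEL.  Extension cell by cell.  `good K Φ` is any property of a map `Φ` on a compact set `K` that
(a) only depends on `Φ` on `K`, (b) passes to the union of two compact sets, (c) passes to subsets,
(e) holds for the empty set, (d) extends over each cell `e` of `C` outside `D`.
PROOF.  Induction on the number of cells in `C \ D`.  If it is not empty take `e` in it with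
`e.2.card` minimal; by IFC (5) every `e' ≠ e` with `cel e' ⊆ cel e` is in `D` (it is in `C`).  So
`cbd e ⊆ spt D` by IFC (2), so `Φ₀` is good on `cbd e`; (d) gives `Φ'`.  Let `Φ₁ = Φ'` on `cel e`,
`Φ₁ = Φ₀` elsewhere.  On `spt D ∩ cel e` we have `Φ₁ = Φ₀`: a point `u` of it outside `cbd e` would
give (IFC (1)) `cel e ⊆ cel e'`, `e' ∈ D`, so `e ∈ D`.  So `Φ₁` is good on `spt D ∪ cel e =
spt (insert e D)`, and `insert e D` is closed under faces.  Continue with it. -/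
def StCEL : Prop := ∀ (d : ℕ) (C D : Finset (Cel d)), Cx C → Cx D → D ⊆ C →
  ∀ (W : Type) (good : Set (Fin d → ℝ) → ((Fin d → ℝ) → W) → Prop),
  (∀ K Φ Φ', good K Φ → (∀ u ∈ K, Φ' u = Φ u) → good K Φ') →
  (∀ K K' Φ, IsCompact K → IsCompact K' → good K Φ → good K' Φ → good (K ∪ K') Φ) →
  (∀ K K' Φ, K' ⊆ K → good K Φ → good K' Φ) →
  (∀ e ∈ C, e ∉ D → ∀ Φ, good (cbd e) Φ → ∃ Φ', good (cel e) Φ' ∧ ∀ u ∈ cbd e, Φ' u = Φ u) →
  ∀ Φ₀, good (spt D) Φ₀ → ∃ Φ, good (spt C) Φ ∧ ∀ u ∈ spt D, Φ u = Φ₀ u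

/-- LFT.  Relative lifting for cellular pairs.
PROOF.  CEL with `W = E × (ℝ → F)`, `Φ u = (c u, H (·, u))`, `good K Φ`: `c` is continuous on `K`
into `X`, `H` is continuous on `I × K` into `Y` and `H(0,u) = b u`, `H(1,u) = f (c u)` on `K`
(closed sets, so unions are fine).  (d): transport to the cube by CPR and use WR from WEP. -/
def StLFT : Prop := ∀ (E F : Type) [TopologicalSpace E] [TopologicalSpace F] (X : Set E) (Y : Set F)
    (f : E → F), WE X Y f → ∀ (d : ℕ) (C D : Finset (Cel d)), Cx C → Cx D → D ⊆ C →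
    ∀ (a : (Fin d → ℝ) → E) (b : (Fin d → ℝ) → F) (K : ℝ × (Fin d → ℝ) → F),
    Mp (spt D) X a → Mp (spt C) Y b → Mp (II ×ˢ spt D) Y K →
    (∀ u ∈ spt D, K (0, u) = b u) → (∀ u ∈ spt D, K (1, u) = f (a u)) →
    ∃ (c : (Fin d → ℝ) → E) (H : ℝ × (Fin d → ℝ) → F),
      Mp (spt C) X c ∧ (∀ u ∈ spt D, c u = a u) ∧ Mp (II ×ˢ spt C) Y H ∧
      (∀ u ∈ spt C, H (0, u) = b u) ∧ (∀ u ∈ spt C, H (1, u) = f (c u)) ∧
      ∀ s ∈ II, ∀ u ∈ spt D, H (s, u) = K (s, u)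

/-- BCX.  The cube and its boundary are complexes.
PROOF.  `C` = all cells `(k, J)` with `k_i ∈ {0,1}` and `k_i = 0` for `i ∈ J`; `D` = those with
`J ≠ univ`.  (A cell contained in the unit cube has this form.) -/
def StBCX : Prop := ∀ n : ℕ, ∃ C D : Finset (Cel n), Cx C ∧ Cx D ∧ D ⊆ C ∧ spt C = Cb n ∧
  spt D = Bd n

/-! ### Formal properties -/

/-- CMP.  Composition.
PROOF.  Given `a : ∂Iⁿ → X`, `b : Iⁿ → Z`, `b = g f a` on the boundary.  WE of `g` for `(f a, b)`: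
`b₁` with `b₁ = f a` on the boundary, homotopy `P` from `b` to `g b₁`.  WE of `f` for `(a, b₁)`: `c`
and `R` from `b₁` to `f c`.  CCT (1) with the constant track `k(s,u) = b u` applied to `P` and
`g ∘ R`. -/
def StCMP : Prop := ∀ (E F G : Type) [TopologicalSpace E] [TopologicalSpace F] [TopologicalSpace G]
    (X : Set E) (Y : Set F) (Z : Set G) (f : E → F) (g : F → G),
    WE X Y f → WE Y Z g → WE X Z (g ∘ f)

/-- INJ.  A weak equivalence is injective on homotopy classes relative to the boundary.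
PROOF.  WE of `k` for the cube `I^(n+1) = I × Iⁿ` (coordinates `Fin.cons s u`): `a` on its boundary
is `b₀` for `s = 0`, `b₁` for `s = 1`, `b₀ u` for `u ∈ ∂Iⁿ` (closed pieces), `b = H`.  The resulting
`c` restricted to its boundary is `a`, so it is the homotopy. -/
def StINJ : Prop := ∀ (E F : Type) [TopologicalSpace E] [TopologicalSpace F] (Y : Set E) (Z : Set F)
    (k : E → F), WE Y Z k → ∀ (n : ℕ) (b₀ b₁ : (Fin n → ℝ) → E) (H : ℝ × (Fin n → ℝ) → F),
    Mp (Cb n) Y b₀ → Mp (Cb n) Y b₁ → (∀ u ∈ Bd n, b₀ u = b₁ u) → Mp (II ×ˢ Cb n) Z H →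
    (∀ u ∈ Cb n, H (0, u) = k (b₀ u)) → (∀ u ∈ Cb n, H (1, u) = k (b₁ u)) →
    (∀ s ∈ II, ∀ u ∈ Bd n, H (s, u) = k (b₀ u)) →
    ∃ L : ℝ × (Fin n → ℝ) → E, Mp (II ×ˢ Cb n) Y L ∧ (∀ u ∈ Cb n, L (0, u) = b₀ u) ∧
      (∀ u ∈ Cb n, L (1, u) = b₁ u) ∧ ∀ s ∈ II, ∀ u ∈ Bd n, L (s, u) = b₀ u

/-- CN2.  If `g` and `g ∘ f` are weak equivalences, so is `f`.
PROOF.  Given `a, b` with `b = f a` on the boundary.  WE of `g f` for `(a, g b)`: `c = a` on the
boundary, homotopy from `g b` to `g f c` relative to the boundary.  INJ for `g` with `b₀ = b`,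
`b₁ = f c`. -/
def StCN2 : Prop := ∀ (E F G : Type) [TopologicalSpace E] [TopologicalSpace F] [TopologicalSpace G]
    (X : Set E) (Y : Set F) (Z : Set G) (f : E → F) (g : F → G),
    Mp X Y f → WE Y Z g → WE X Z (g ∘ f) → WE X Y f

/-- HTP.  A map homotopic to a weak equivalence is a weak equivalence.
PROOF.  Let `h` be the homotopy from `f` (WE) to `g`.  Given `a, b`, `b = g a` on the boundary.
`K(s,u) = h(1-s, a u)` is a homotopy from `g a` to `f a`.  WR for `f` (WEP) gives `c = a` on the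
boundary and `P` from `b` to `f c` with track `K`.  `R(s,u) = h(s, c u)` from `f c` to `g c`, its
boundary track is `K` backwards.  CCT (2). -/
def StHTP : Prop := ∀ (E F : Type) [TopologicalSpace E] [TopologicalSpace F] (X : Set E) (Y : Set F)
    (f g : E → F), WE X Y f → Mp X Y g → Htp X Y f g → WE X Y g

/-- HEQ.  Homotopy equivalences are weak equivalences.
PROOF.  The identity is WE (take `c = b`, `H` constant), so by HTP `g ∘ f` and `f ∘ g` are WE (a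
homotopy reversed in time is a homotopy).  Given `a, b` with `b = f a` on the boundary.  WE of
`g f : X → X` for `(a, g b)`: `c = a` on the boundary and a homotopy from `g b` to `g f c` relative
to the boundary; apply `f`: a homotopy from `f g b` to `f g (f c)` relative to the boundary.  INJ for
`k = f ∘ g`, `b₀ = b`, `b₁ = f c`: homotopy from `b` to `f c` relative to the boundary. -/
def StHEQ : Prop := ∀ (E F : Type) [TopologicalSpace E] [TopologicalSpace F] (X : Set E) (Y : Set F)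
    (f : E → F) (g : F → E), Mp X Y f → Mp Y X g → Htp X X (g ∘ f) id → Htp Y Y (f ∘ g) id →
    WE X Y f

/-- CN3.  If `f` and `g ∘ f` are weak equivalences, so is `g`.
PROOF.  Given `a : ∂Iⁿ → Y`, `b : Iⁿ → Z`, `b = g a` on the boundary.  LFT for `f`, `D = ∅`, `C` =
the boundary complex (BCX), map `a` on `spt C = ∂Iⁿ`: `c₀ : ∂Iⁿ → X` and a homotopy
`A : I × ∂Iⁿ → Y` from `a` to `f c₀`.  WR for `g f` (WEP) with `K = g A`: `c : Iⁿ → X`, `c = c₀` on
the boundary, `P` from `b` to `g f c` with track `g A`.  HEP (2) for `f c` and `A`: `A' : I × Iⁿ → Y`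
with `A'(1,·) = f c`, `A' = A` on the boundary; `e := A'(0,·)`, `e = a` on the boundary.
`R(s,u) = g A'(1-s,u)` from `g f c` to `g e`, track `g A` backwards.  CCT (2): homotopy from `b` to
`g e` relative to the boundary. -/
def StCN3 : Prop := ∀ (E F G : Type) [TopologicalSpace E] [TopologicalSpace F] [TopologicalSpace G]
    [Nonempty E] (X : Set E) (Y : Set F) (Z : Set G) (f : E → F) (g : F → G),
    Mp Y Z g → WE X Y f → WE X Z (g ∘ f) → WE Y Z g

/-- LBL.  Labels of the small cubes of a fine grid.  The cube `[0,N]ⁿ`, small cubes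
`cel (k, univ)`, `0 ≤ k_i < N`.  `a` is a map on the boundary of the big cube, `b` on the big cube.
PROOF.  Each point `u` of `Iⁿ` has a neighbourhood `O` and a label `l` with `b(O ∩ Iⁿ) ⊆ Y_l` and
`a(O ∩ ∂Iⁿ) ⊆ X_l`: if `u ∈ ∂Iⁿ` choose `l` with `a u ∈ X_l`, then `b u = f (a u) ∈ Y_l`; if not choose
`l` with `b u ∈ Y_l` and use that the boundary is closed.  (`U_l`, `V_l` are the open sets with
`X_l = X ∩ U_l`, `Y_l = Y ∩ V_l`.)  Lebesgue number of the compact cube: for `N` large every cube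
`{u : k_i/N ≤ u_i ≤ (k_i+1)/N}` is in one `O`. -/
def StLBL : Prop := ∀ (E F : Type) [TopologicalSpace E] [TopologicalSpace F] (X : Set E) (Y : Set F)
    (f : E → F) (U : Bool → Set E) (V : Bool → Set F), (∀ l, IsOpen (U l)) → (∀ l, IsOpen (V l)) →
    X ⊆ U true ∪ U false → Y ⊆ V true ∪ V false → (∀ l, MapsTo f (X ∩ U l) (V l)) →
    ∀ (n : ℕ) (a : (Fin n → ℝ) → E) (b : (Fin n → ℝ) → F), Mp (Bd n) X a → Mp (Cb n) Y b →
    (∀ u ∈ Bd n, b u = f (a u)) →
    ∃ N : ℕ, 0 < N ∧ ∃ l : (Fin n → ℤ) → Bool, ∀ k : Fin n → ℤ, (∀ i, 0 ≤ k i ∧ k i < N) →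
      ∀ u : Fin n → ℝ, (∀ i, (k i : ℝ) ≤ N * u i ∧ N * u i ≤ k i + 1) →
        b u ∈ V (l k) ∧ (u ∈ Bd n → a u ∈ U (l k))

/-- GLU.  Gluing lemma.
PROOF.  Given `a, b` take `N`, labels `l` from LBL.  Work on `[0,N]ⁿ` with `a(u/N)`, `b(u/N)`.
`C` = all cells contained in `[0,N]ⁿ` (finite, closed under faces, `spt C = [0,N]ⁿ`), `D` = those
contained in its boundary (`spt D` = the boundary: a point of the boundary has a coordinate 0 or N
and lies in a cell with this coordinate fixed).  Use CEL with `W = E × (ℝ → F)`,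
`Φ u = (c u, H(·,u))` and `good K Φ`: `c` continuous on `K` into `X`, `H` continuous on `I × K` into
`Y`, `H(0,u) = b(u/N)`, `H(1,u) = f (c u)`, and for every small cube `Q = cel (k, univ)`,
`0 ≤ k_i < N`, and `u ∈ K ∩ Q`: `c u ∈ U_(l k)`, `H(s,u) ∈ V_(l k)`.  On `spt D` the pair
(`a(u/N)`, constant) is good.  (d) for a cell `e`: let `S` be the set of labels of the small cubes
containing `e` (not empty); `X_S = X ∩ ⋂_(l∈S) U_l`, `Y_S` likewise; `f : X_S → Y_S` is WE (three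
cases).  On `∂e` the map is good so it has values in `X_S`, `Y_S`.  WR (WEP) for `X_S → Y_S`,
transported by CPR, gives the extension over `e`.  It is good on `e`: for `u ∈ e ∩ Q` with `e ⊆ Q`
clear; if `e` is not contained in `Q` then `u ∈ ∂e` by IFC (1) and goodness on `∂e` applies.
Rescale the result to `Iⁿ`: `c(N u)`, `H(s, N u)`. -/
def StGLU : Prop := ∀ (E F : Type) [TopologicalSpace E] [TopologicalSpace F] (X : Set E) (Y : Set F)
    (f : E → F) (U₁ U₂ : Set E) (V₁ V₂ : Set F), IsOpen U₁ → IsOpen U₂ → IsOpen V₁ → IsOpen V₂ →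
    X ⊆ U₁ ∪ U₂ → Y ⊆ V₁ ∪ V₂ →
    WE (X ∩ U₁) (Y ∩ V₁) f → WE (X ∩ U₂) (Y ∩ V₂) f → WE (X ∩ (U₁ ∩ U₂)) (Y ∩ (V₁ ∩ V₂)) f →
    WE X Y f

/-- PRD.  Product with a space.
PROOF.  Lift the first coordinate, keep the second: `c = (c₁, b₂)`, `H = (H₁, b₂)`. -/
def StPRD : Prop := ∀ (E F G : Type) [TopologicalSpace E] [TopologicalSpace F] [TopologicalSpace G]
    (X : Set E) (Y : Set F) (Z : Set G) (f : E → F), WE X Y f →
    WE (X ×ˢ Z) (Y ×ˢ Z) (fun q : E × G => (f q.1, q.2))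

/-- WCA.  Weakly contractible sets, first properties: (1) contractible by an explicit homotopy;
(2) any map between weakly contractible sets is WE; (3), (4) transport along WE; (5) extension of
maps on cellular pairs.
PROOF.  (1) HEQ for `X → point` with inverse `x₀`.  (2) CN2.  (3) CMP.  (4) CN3 for `X → Y → point`.
(5) LFT for `X → point`. -/
def StWCA : Prop :=
  (∀ (E : Type) [TopologicalSpace E] (X : Set E) (x₀ : E) (H : ℝ × E → E), x₀ ∈ X →
    Mp (II ×ˢ X) X H → (∀ x ∈ X, H (0, x) = x) → (∀ x ∈ X, H (1, x) = x₀) → WC X) ∧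
  (∀ (E F : Type) [TopologicalSpace E] [TopologicalSpace F] (X : Set E) (Y : Set F) (f : E → F),
    WC X → WC Y → Mp X Y f → WE X Y f) ∧
  (∀ (E F : Type) [TopologicalSpace E] [TopologicalSpace F] [Nonempty E] (X : Set E) (Y : Set F)
    (f : E → F), WE X Y f → WC Y → WC X) ∧
  (∀ (E F : Type) [TopologicalSpace E] [TopologicalSpace F] (X : Set E) (Y : Set F) (f : E → F),
    WE X Y f → WC X → WC Y) ∧
  (∀ (E : Type) [TopologicalSpace E] (X : Set E), WC X → ∀ (d : ℕ) (C D : Finset (Cel d)), Cx C →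
    Cx D → D ⊆ C → ∀ a : (Fin d → ℝ) → E, Mp (spt D) X a →
    ∃ c : (Fin d → ℝ) → E, Mp (spt C) X c ∧ ∀ u ∈ spt D, c u = a u)

/-- WCG.  (1) Union of two weakly contractible relatively open sets with weakly contractible
intersection.  (2) A homeomorphism is WE.  (3) If `X₁₂ → X₂` is WE then `X₁ → X₁ ∪ X₂` is WE.
(4) the empty case.
PROOF.  (1) GLU for the map to a point (`V₁ = V₂ = univ`).  The union is not empty.  (2) HEQ with
constant homotopies.  (3) GLU for the inclusion `id : X ∩ U₁ → X` with the opens `U₁`, `U₁ ∩ U₂`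
upstairs and `U₁`, `U₂` downstairs: `id` on `X ∩ U₁`, `X₁₂ → X ∩ U₂`, `id` on `X₁₂`.
(4) there is no map of a nonempty set to the empty set and `Iⁿ` is not empty. -/
def StWCG : Prop :=
  (∀ (E : Type) [TopologicalSpace E] (X U₁ U₂ : Set E), IsOpen U₁ → IsOpen U₂ → X ⊆ U₁ ∪ U₂ →
    WC (X ∩ U₁) → WC (X ∩ U₂) → WC (X ∩ (U₁ ∩ U₂)) → WC X) ∧
  (∀ (E F : Type) [TopologicalSpace E] [TopologicalSpace F] (X : Set E) (Y : Set F) (f : E → F)
    (g : F → E), Mp X Y f → Mp Y X g → (∀ x ∈ X, g (f x) = x) → (∀ y ∈ Y, f (g y) = y) →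
    WE X Y f) ∧
  (∀ (E : Type) [TopologicalSpace E] (X U₁ U₂ : Set E), IsOpen U₁ → IsOpen U₂ → X ⊆ U₁ ∪ U₂ →
    WE (X ∩ (U₁ ∩ U₂)) (X ∩ U₂) id → WE (X ∩ U₁) X id) ∧
  (∀ (E F : Type) [TopologicalSpace E] [TopologicalSpace F] (f : E → F),
    WE (∅ : Set E) (∅ : Set F) f)

end Pool.Agent.Helper84.FX
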